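import Pool.Agent.Run7.h897.FS.Cx

/-!
# Kernels with values in matrices
-/

set_option autoImplicit false
set_option linter.unusedSectionVars false
set_option linter.unusedVariables false

open MeasureTheory Matrix
open scoped ComplexConjugate
open Pool.Agent.Run7.h897.FS

namespace Run7.h182.PC

noncomputable section

variable {X Y : Type*} [MeasurableSpace X] [MeasurableSpace Y] {J : Type*} [Fintype J]
  [DecidableEq J]

/-- bounded measurable matrix functions -/
def BT (f : X → Matrix J J ℂ) : Prop := ∀ i j, BC fun x => f x i j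

/-- entrywise integrals -/
def mint (μ : Measure X) (f : X → Matrix J J ℂ) : Matrix J J ℂ :=
  Matrix.of fun i j => ∫ x, f x i j ∂μ

lemma mint_apply (μ : Measure X) (f : X → Matrix J J ℂ) (i j : J) :
    mint μ f i j = ∫ x, f x i j ∂μ := rfl

lemma BT.const (A : Matrix J J ℂ) : BT fun _ : X => A := fun i j => BC.const _

lemma BT.mul {f g : X → Matrix J J ℂ} (hf : BT f) (hg : BT g) : BT fun x => f x * g x := by
  intro i j
  simp only [Matrix.mul_apply]
  exact BC.sum _ fun c _ => (hf i c).mul (hg c j)

lemma BT.comp {f : Y → Matrix J J ℂ} (hf : BT f) {φ : X → Y} (hφ : Measurable φ) :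
    BT fun x => f (φ x) := fun i j => (hf i j).comp hφ

lemma BT.smul {f : X → Matrix J J ℂ} {c : X → ℂ} (hc : BC c) (hf : BT f) :
    BT fun x => c x • f x := by
  intro i j
  simp only [Matrix.smul_apply, smul_eq_mul]
  exact hc.mul (hf i j)

lemma BT.trace {f : X → Matrix J J ℂ} (hf : BT f) : BC fun x => trace (f x) := by
  simp only [Matrix.trace, Matrix.diag]
  exact BC.sum _ fun c _ => hf c c

lemma BC.conj {f : X → ℂ} (hf : BC f) : BC fun x => conj (f x) := by
  obtain ⟨h1, C, hC⟩ := hf
  exact ⟨(Complex.continuous_conj.measurable).comp h1, C, fun x => by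
    rw [Complex.norm_conj]; exact hC x⟩

lemma BT.star {f : X → Matrix J J ℂ} (hf : BT f) : BT fun x => (f x)ᴴ := by
  intro i j
  simp only [Matrix.conjTranspose_apply]
  exact BC.conj (hf j i)

lemma BT.intg {ν : Measure Y} [IsProbabilityMeasure ν] {f : X × Y → Matrix J J ℂ} (hf : BT f) :
    BT fun x => mint ν fun y => f (x, y) := by
  intro i j
  simp only [mint_apply]
  exact (hf i j).intg

section int

variable {μ : Measure X} {ν : Measure Y} [IsProbabilityMeasure μ] [IsProbabilityMeasure ν]

lemma mint_mul_left (A : Matrix J J ℂ) {f : X → Matrix J J ℂ} (hf : BT f) :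
    mint μ (fun x => A * f x) = A * mint μ f := by
  ext i j
  simp only [mint_apply, Matrix.mul_apply]
  rw [integral_finsetSum _ fun c _ => ((BC.const _).mul (hf c j)).int]
  simp only [integral_const_mul]

lemma mint_mul_right (A : Matrix J J ℂ) {f : X → Matrix J J ℂ} (hf : BT f) :
    mint μ (fun x => f x * A) = mint μ f * A := by
  ext i j
  simp only [mint_apply, Matrix.mul_apply]
  rw [integral_finsetSum _ fun c _ => ((hf i c).mul (BC.const _)).int]
  simp only [integral_mul_const]

lemma mint_trace {f : X → Matrix J J ℂ} (hf : BT f) :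
    trace (mint μ f) = ∫ x, trace (f x) ∂μ := by
  simp only [Matrix.trace, Matrix.diag, mint_apply]
  rw [integral_finsetSum _ fun c _ => (hf c c).int]

lemma mint_star (f : X → Matrix J J ℂ) : (mint μ f)ᴴ = mint μ fun x => (f x)ᴴ := by
  ext i j
  simp only [mint_apply, Matrix.conjTranspose_apply]
  exact (integral_conj).symm

lemma mint_swap {f : X → Y → Matrix J J ℂ} (hf : BT (Function.uncurry f)) :
    mint μ (fun x => mint ν fun y => f x y) = mint ν fun y => mint μ fun x => f x y := by
  ext i j
  simp only [mint_apply]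
  exact cswp (f := fun x y => f x y i j) (hf i j)

lemma mint_prod {f : X × Y → Matrix J J ℂ} (hf : BT f) :
    mint (μ.prod ν) f = mint μ fun x => mint ν fun y => f (x, y) := by
  ext i j
  simp only [mint_apply]
  exact cfub (hf i j)

lemma mint_mp {φ : X → Y} (h : MeasurePreserving φ μ ν) {f : Y → Matrix J J ℂ} (hf : BT f) :
    mint μ (fun x => f (φ x)) = mint ν f := by
  ext i j
  simp only [mint_apply]
  rw [← h.map_eq, integral_map h.measurable.aemeasurable (hf i j).1.aestronglyMeasurable]

end int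

/-! ### powers -/

/-- the kernels of the powers -/
def kM (μ : Measure X) (κ : X → X → Matrix J J ℂ) : ℕ → X → X → Matrix J J ℂ
  | 0 => fun _ _ => 0
  | 1 => κ
  | n + 2 => fun x y => mint μ fun u => κ x u * kM μ κ (n + 1) u y

variable {μ : Measure X} [IsProbabilityMeasure μ] {κ : X → X → Matrix J J ℂ}

lemma kM_one : kM μ κ 1 = κ := rfl

lemma kM_succ {n : ℕ} (hn : 1 ≤ n) (x y : X) :
    kM μ κ (n + 1) x y = mint μ fun u => κ x u * kM μ κ n u y := by
  obtain ⟨m, rfl⟩ : ∃ m, n = m + 1 := ⟨n - 1, by omega⟩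
  rfl

lemma kM_bm (hk : BT (Function.uncurry κ)) {n : ℕ} (hn : 1 ≤ n) :
    BT (Function.uncurry (kM μ κ n)) := by
  induction n, hn using Nat.le_induction with
  | base => exact hk
  | succ n hn ih =>
    have h1 : BT fun w : (X × X) × X => κ w.1.1 w.2 * kM μ κ n w.2 w.1.2 :=
      (hk.comp (measurable_fst.fst.prodMk measurable_snd)).mul
        (ih.comp (measurable_snd.prodMk measurable_fst.snd))
    have h2 := h1.intg (ν := μ)
    convert h2 using 1
    funext w
    exact kM_succ hn _ _

lemma kM_l (hk : BT (Function.uncurry κ)) {n : ℕ} (hn : 1 ≤ n) (x : X) :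
    BT fun y => kM μ κ n x y := (kM_bm hk hn).comp (measurable_const.prodMk measurable_id)

lemma kM_r (hk : BT (Function.uncurry κ)) {n : ℕ} (hn : 1 ≤ n) (y : X) :
    BT fun x => kM μ κ n x y := (kM_bm hk hn).comp (measurable_id.prodMk measurable_const)

lemma kM_semi (hk : BT (Function.uncurry κ)) {m n : ℕ} (hm : 1 ≤ m) (hn : 1 ≤ n) :
    ∀ x y, kM μ κ (m + n) x y = mint μ fun u => kM μ κ m x u * kM μ κ n u y := by
  induction m, hm using Nat.le_induction with
  | base =>
    intro x y
    rw [add_comm, kM_succ hn]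
    rfl
  | succ m hm ih =>
    intro x y
    rw [show m + 1 + n = m + n + 1 by ring, kM_succ (by omega)]
    have b1 : ∀ u, BT fun v => kM μ κ m u v * kM μ κ n v y := fun u =>
      (kM_l hk hm u).mul (kM_r hk hn y)
    have e1 : ∀ u, κ x u * kM μ κ (m + n) u y =
        mint μ fun v => κ x u * (kM μ κ m u v * kM μ κ n v y) := fun u => by
      rw [ih, mint_mul_left _ (b1 u)]
    have b0 : BT fun u => κ x u := hk.comp (measurable_const.prodMk measurable_id)
    have b2 : ∀ v, BT fun u => κ x u * kM μ κ m u v := fun v => b0.mul (kM_r hk hm v)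
    have e2 : ∀ v, kM μ κ (m + 1) x v * kM μ κ n v y =
        mint μ fun u => κ x u * (kM μ κ m u v * kM μ κ n v y) := fun v => by
      rw [kM_succ hm, ← mint_mul_right _ (b2 v)]
      congr 1
      funext u
      rw [Matrix.mul_assoc]
    simp only [e1, e2]
    refine mint_swap ?_
    exact (hk.comp (measurable_const.prodMk measurable_fst)).mul
      (((kM_bm hk hm).comp (measurable_fst.prodMk measurable_snd)).mul
        ((kM_bm hk hn).comp (measurable_snd.prodMk measurable_const)))

lemma kM_herm (hk : BT (Function.uncurry κ)) (hs : ∀ x y, (κ x y)ᴴ = κ y x) {n : ℕ}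
    (hn : 1 ≤ n) : ∀ x y, (kM μ κ n x y)ᴴ = kM μ κ n y x := by
  induction n, hn using Nat.le_induction with
  | base => exact hs
  | succ n hn ih =>
    intro x y
    rw [kM_succ hn, kM_semi hk hn le_rfl, mint_star]
    congr 1
    funext u
    rw [Matrix.conjTranspose_mul, hs x u, ih u y, kM_one]

/-- the trace of the power `n` -/
def TrM (μ : Measure X) (κ : X → X → Matrix J J ℂ) (n : ℕ) : ℝ :=
  (∫ x, trace (kM μ κ n x x) ∂μ).re

/-- the form on matrix functions -/
def frm (ν : Measure Y) (f g : Y → Matrix J J ℂ) : ℝ := (∫ z, trace (f z * (g z)ᴴ) ∂ν).re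

lemma trace_self_nonneg (A : Matrix J J ℂ) : 0 ≤ (trace (A * Aᴴ)).re := by
  simp only [Matrix.trace, Matrix.diag, Matrix.mul_apply, Matrix.conjTranspose_apply,
    Complex.re_sum]
  refine Finset.sum_nonneg fun i _ => Finset.sum_nonneg fun j _ => ?_
  rw [RCLike.star_def, Complex.mul_conj, Complex.ofReal_re]
  exact Complex.normSq_nonneg _

lemma frm_self_nonneg {ν : Measure Y} [IsProbabilityMeasure ν] {f : Y → Matrix J J ℂ}
    (hf : BT f) : 0 ≤ frm ν f f := by
  unfold frm
  rw [re_int (hf.mul hf.star).trace]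
  exact integral_nonneg fun z => trace_self_nonneg _

lemma frm_cs {ν : Measure Y} [IsProbabilityMeasure ν] {f g : Y → Matrix J J ℂ}
    (hf : BT f) (hg : BT g) : frm ν f g ^ 2 ≤ frm ν f f * frm ν g g := by
  have key : ∀ t : ℝ, 0 ≤ frm ν g g * (t * t) + (-(2 * frm ν f g)) * t + frm ν f f := by
    intro t
    have hb : BT fun z => f z + ((-t : ℝ) : ℂ) • g z := by
      intro i j
      simp only [Matrix.add_apply, Matrix.smul_apply, smul_eq_mul]
      exact (hf i j).add ((BC.const _).mul (hg i j))
    have h1 := frm_self_nonneg (ν := ν) hb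
    have bff := (hf.mul hf.star).trace
    have bgg := (hg.mul hg.star).trace
    have bfg := (hf.mul hg.star).trace
    have e : frm ν (fun z => f z + ((-t : ℝ) : ℂ) • g z) (fun z => f z + ((-t : ℝ) : ℂ) • g z) =
        frm ν g g * (t * t) + (-(2 * frm ν f g)) * t + frm ν f f := by
      unfold frm
      rw [re_int (hb.mul hb.star).trace, re_int bff, re_int bgg, re_int bfg]
      have e1 : ∀ z, (trace ((f z + ((-t : ℝ) : ℂ) • g z) * (f z + ((-t : ℝ) : ℂ) • g z)ᴴ)).re =
          (trace (g z * (g z)ᴴ)).re * (t * t) + (-(2 * (trace (f z * (g z)ᴴ)).re)) * t +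
            (trace (f z * (f z)ᴴ)).re := by
        intro z
        have e2 : (trace (g z * (f z)ᴴ)).re = (trace (f z * (g z)ᴴ)).re := by
          have : g z * (f z)ᴴ = (f z * (g z)ᴴ)ᴴ := by
            rw [Matrix.conjTranspose_mul, Matrix.conjTranspose_conjTranspose]
          rw [this, Matrix.trace_conjTranspose, RCLike.star_def, Complex.conj_re]
        rw [Matrix.conjTranspose_add, Matrix.conjTranspose_smul, RCLike.star_def,
          Complex.conj_ofReal]
        simp only [Matrix.add_mul, Matrix.mul_add, Matrix.smul_mul, Matrix.mul_smul,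
          Matrix.trace_add, Matrix.trace_smul, smul_eq_mul, Complex.add_re, Complex.re_ofReal_mul,
          smul_smul]
        rw [e2]
        ring
      simp only [e1]
      have i1 : Integrable (fun z => (trace (g z * (g z)ᴴ)).re) ν := bgg.int.re
      have i2 : Integrable (fun z => (trace (f z * (g z)ᴴ)).re) ν := bfg.int.re
      have i3 : Integrable (fun z => (trace (f z * (f z)ᴴ)).re) ν := bff.int.re
      rw [integral_add, integral_add, integral_mul_const, integral_mul_const, integral_neg,
        integral_const_mul]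
      · exact i1.mul_const _
      · exact (i2.const_mul 2).neg.mul_const _
      · exact (i1.mul_const _).add ((i2.const_mul 2).neg.mul_const _)
      · exact i3
    rw [e] at h1
    exact h1
  have h2 := discrim_le_zero key
  unfold discrim at h2
  nlinarith

/-- the trace of a product of powers -/
lemma TrM_add (hk : BT (Function.uncurry κ)) (hs : ∀ x y, (κ x y)ᴴ = κ y x) {m n : ℕ}
    (hm : 1 ≤ m) (hn : 1 ≤ n) : TrM μ κ (m + n) =
      frm (μ.prod μ) (fun z => kM μ κ m z.1 z.2) fun z => kM μ κ n z.1 z.2 := by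
  unfold TrM frm
  have b1 : BT fun z : X × X => kM μ κ m z.1 z.2 := kM_bm hk hm
  have b2 : BT fun z : X × X => kM μ κ n z.1 z.2 := kM_bm hk hn
  rw [cfub (b1.mul b2.star).trace]
  congr 2
  funext x
  rw [kM_semi hk hm hn, mint_trace]
  · congr 1
    funext u
    simp only
    rw [kM_herm hk hs hn]
  · exact (kM_l hk hm x).mul (kM_r hk hn x)

lemma TrM_nonneg (hk : BT (Function.uncurry κ)) (hs : ∀ x y, (κ x y)ᴴ = κ y x) {n : ℕ}
    (hn : 1 ≤ n) : 0 ≤ TrM μ κ (2 * n) := by
  rw [two_mul, TrM_add hk hs hn hn]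
  exact frm_self_nonneg (kM_bm hk hn)

lemma TrM_lc (hk : BT (Function.uncurry κ)) (hs : ∀ x y, (κ x y)ᴴ = κ y x) {n : ℕ}
    (hn : 1 ≤ n) : TrM μ κ (2 * (n + 1)) ^ 2 ≤ TrM μ κ (2 * n) * TrM μ κ (2 * (n + 2)) := by
  rw [show 2 * (n + 1) = n + (n + 2) by ring, show 2 * (n + 2) = (n + 2) + (n + 2) by ring,
    two_mul n, TrM_add hk hs hn (by omega), TrM_add hk hs hn hn, TrM_add hk hs (by omega)
    (by omega)]
  exact frm_cs (kM_bm hk hn) (kM_bm hk (by omega))

end

end Run7.h182.PC
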