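import Pool.Agent.Run7.h182.PC.Rg
import Pool.Agent.Run7.h897.ST.PC
import Pool.Agent.Run7.h4.YM.Frame

/-!
# Log-convexity of the correlation of two Polyakov loops in their length
-/

set_option autoImplicit false
set_option linter.unusedSectionVars false
set_option linter.unusedVariables false

open MeasureTheory Matrix
open scoped ComplexConjugate Kronecker
open Pool.Agent.Run7.h897.FS
open Pool.Agent.Run7.h897.PC (Fp S_PC3)
open Run7.h4.YM

namespace Run7.h182.PC

noncomputable section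

/-! ### ordered products -/

section op

variable {N : ℕ}

lemma op_kron {n : ℕ} (A B : Fin n → Matrix (Fin N) (Fin N) ℂ) :
    (op fun t => A t ⊗ₖ B t) = op A ⊗ₖ op B := by
  induction n with
  | zero => simp [op_zero]
  | succ n ih => rw [op_succ, op_succ A, op_succ B, ih, Matrix.mul_kronecker_mul]

lemma op_conj {n : ℕ} (A : Fin n → Matrix (Fin N) (Fin N) ℂ) :
    (op fun t => (A t).map (starRingEnd ℂ)) = (op A).map (starRingEnd ℂ) := by
  induction n with
  | zero => simp [op_zero]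
  | succ n ih => rw [op_succ, op_succ A, ih, Matrix.map_mul]

lemma trace_conj (A : Matrix (Fin N) (Fin N) ℂ) :
    trace (A.map (starRingEnd ℂ)) = conj (trace A) := by
  simp [Matrix.trace, map_sum]

end op

variable {N L l : ℕ} [NeZero N] [NeZero L] [NeZero l]

/-- the points of a slice -/
abbrev Sp (L l : ℕ) := ZMod L × (ZMod l × ZMod l)

/-- the links in terms of slices -/
def sg (n L l : ℕ) : (ZMod n × (Fin 3 × Sp L l)) ⊕ (ZMod n × Sp L l) ≃ Link n L l where
  toFun := fun z => match z with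
    | Sum.inl p => (p.2.1.succ, (p.1, p.2.2))
    | Sum.inr p => (0, (p.1, p.2))
  invFun := fun e => Fin.cases (motive := fun _ => (ZMod n × (Fin 3 × Sp L l)) ⊕ (ZMod n × Sp L l))
    (Sum.inr (e.2.1, e.2.2)) (fun j => Sum.inl (e.2.1, (j, e.2.2))) e.1
  left_inv := by
    rintro (⟨t, j, v⟩ | ⟨t, v⟩)
    · rfl
    · rfl
  right_inv := by
    rintro ⟨i, t, v⟩
    refine Fin.cases ?_ (fun j => ?_) i
    · rfl
    · rfl

/-- the energy of a slice -/
def sE (k : ℕ) (x : Fin 3 × Sp L l → SU N) : ℝ :=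
  ∑ u : ZMod L, ((∑ y : ZMod l × ZMod l, aw (twf N k y) (x (1, u, y) * x (2, u, y + (1, 0)) *
      (x (1, u, y + (0, 1)))⁻¹ * (x (2, u, y))⁻¹)) +
    ∑ y : ZMod l × ZMod l, (aw 1 (x (0, u, y) * x (1, u + 1, y) *
      (x (0, u, y + (1, 0)))⁻¹ * (x (1, u, y))⁻¹) + aw 1 (x (0, u, y) * x (2, u + 1, y) *
      (x (0, u, y + (0, 1)))⁻¹ * (x (2, u, y))⁻¹)))

/-- the energy of a layer -/
def tE (x : Fin 3 × Sp L l → SU N) (g : Sp L l → SU N) (x' : Fin 3 × Sp L l → SU N) : ℝ :=
  ∑ u : ZMod L, ((∑ y : ZMod l × ZMod l, (aw 1 (g (u, y) * x' (1, u, y) *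
      (g (u, y + (1, 0)))⁻¹ * (x (1, u, y))⁻¹) + aw 1 (g (u, y) * x' (2, u, y) *
      (g (u, y + (0, 1)))⁻¹ * (x (2, u, y))⁻¹))) +
    ∑ y : ZMod l × ZMod l, aw 1 (g (u, y) * x' (0, u, y) * (g (u + 1, y))⁻¹ * (x (0, u, y))⁻¹))

lemma action_slices {n : ℕ} [NeZero n] (k : ℕ) (U : Link n L l → SU N) : action k U =
    ∑ t : ZMod n, (tE (xs (sg n L l) U t) (gs (sg n L l) U t) (xs (sg n L l) U (t + 1)) +
      sE k (xs (sg n L l) U t)) := by
  rw [action_eq]
  refine Finset.sum_congr rfl fun t _ => ?_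
  unfold tE sE
  rw [← Finset.sum_add_distrib]
  refine Finset.sum_congr rfl fun u _ => ?_
  have h1 : Vf k U t u = ∑ y : ZMod l × ZMod l, aw (twf N k y) (xs (sg n L l) U t (1, u, y) *
      xs (sg n L l) U t (2, u, y + (1, 0)) * (xs (sg n L l) U t (1, u, y + (0, 1)))⁻¹ *
      (xs (sg n L l) U t (2, u, y))⁻¹) := rfl
  have h2 : K1 U t u = ∑ y : ZMod l × ZMod l, (aw 1 (xs (sg n L l) U t (0, u, y) *
      xs (sg n L l) U t (1, u + 1, y) *
      (xs (sg n L l) U t (0, u, y + (1, 0)))⁻¹ * (xs (sg n L l) U t (1, u, y))⁻¹) +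
      aw 1 (xs (sg n L l) U t (0, u, y) * xs (sg n L l) U t (2, u + 1, y) *
      (xs (sg n L l) U t (0, u, y + (0, 1)))⁻¹ * (xs (sg n L l) U t (2, u, y))⁻¹)) := rfl
  have h3 : K0 U t u = ∑ y : ZMod l × ZMod l, (aw 1 (gs (sg n L l) U t (u, y) *
      xs (sg n L l) U (t + 1) (1, u, y) *
      (gs (sg n L l) U t (u, y + (1, 0)))⁻¹ * (xs (sg n L l) U t (1, u, y))⁻¹) +
      aw 1 (gs (sg n L l) U t (u, y) * xs (sg n L l) U (t + 1) (2, u, y) *
      (gs (sg n L l) U t (u, y + (0, 1)))⁻¹ * (xs (sg n L l) U t (2, u, y))⁻¹)) := rfl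
  have h4 : Wf U t u = ∑ y : ZMod l × ZMod l, aw 1 (gs (sg n L l) U t (u, y) *
      xs (sg n L l) U (t + 1) (0, u, y) * (gs (sg n L l) U t (u + 1, y))⁻¹ *
      (xs (sg n L l) U t (0, u, y))⁻¹) := rfl
  rw [h1, h2, h3, h4]
  ring

lemma tE_swap (x x' : Fin 3 × Sp L l → SU N) (g : Sp L l → SU N) :
    tE x' (fun v => (g v)⁻¹) x = tE x g x' := by
  unfold tE
  refine Finset.sum_congr rfl fun u _ => ?_
  refine congrArg₂ (fun a b : ℝ => a + b) ?_ ?_
  · refine Finset.sum_congr rfl fun y _ => ?_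
    rw [inv_inv, inv_inv, aw_flip, aw_flip]
  · refine Finset.sum_congr rfl fun y _ => ?_
    rw [inv_inv, aw_flip]

/-- the weight of a layer -/
def kw (k : ℕ) (β : ℝ) (x : Fin 3 × Sp L l → SU N) (g : Sp L l → SU N)
    (x' : Fin 3 × Sp L l → SU N) : ℝ :=
  Real.exp (-(β * (sE k x / 2 + tE x g x' + sE k x' / 2)))

lemma kw_swap (k : ℕ) (β : ℝ) (x x' : Fin 3 × Sp L l → SU N) (g : Sp L l → SU N) :
    kw k β x' (fun v => (g v)⁻¹) x = kw k β x g x' := by
  unfold kw
  rw [tE_swap]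
  refine congrArg (fun r : ℝ => Real.exp (-(β * r))) ?_
  ring

lemma prod_kw {n : ℕ} [NeZero n] (k : ℕ) (β : ℝ) (U : Link n L l → SU N) :
    ∏ t, kw k β (xs (sg n L l) U t) (gs (sg n L l) U t) (xs (sg n L l) U (t + 1)) =
      Real.exp (-(β * action k U)) := by
  unfold kw
  rw [← Real.exp_sum, action_slices]
  refine congrArg Real.exp ?_
  have h1 : ∑ t : ZMod n, sE k (xs (sg n L l) U (t + 1)) =
      ∑ t : ZMod n, sE k (xs (sg n L l) U t) :=
    Equiv.sum_comp (Equiv.addRight (1 : ZMod n)) fun t => sE k (xs (sg n L l) U t)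
  rw [Finset.sum_neg_distrib, ← Finset.mul_sum]
  simp only [Finset.sum_add_distrib, ← Finset.sum_div, h1]
  ring

/-- the matrix of the two sources -/
def TT (R : ℕ) (g : Sp L l → SU N) : Matrix (Fin N × Fin N) (Fin N × Fin N) ℂ :=
  (g (0, 0)).1 ⊗ₖ ((g ((R : ZMod L), 0)).1.map (starRingEnd ℂ))

lemma TT_star (R : ℕ) (g : Sp L l → SU N) : (TT R g)ᴴ = TT R fun v => (g v)⁻¹ := by
  unfold TT
  rw [Matrix.conjTranspose_kronecker]
  congr 1

lemma line_op {m : ℕ} (U : Link (m + 1) L l → SU N) (x : ZMod L) :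
    (line U x).1 = op (n := m + 1) fun t : ZMod (m + 1) => (U (0, (t, x, 0, 0))).1 := by
  unfold line op
  have h1 : ((List.range (m + 1)).map fun t : ℕ => U (0, ((t : ZMod (m + 1)), x, 0, 0))) =
      List.ofFn (n := m + 1) fun t : Fin (m + 1) => U (0, ((t : ZMod (m + 1)), x, 0, 0)) := by
    rw [List.ofFn_eq_map, ← List.map_coe_finRange_eq_range, List.map_map]
    refine List.map_congr_left fun i _ => ?_
    simp only [Function.comp]
    congr 3
    exact Fin.cast_val_eq_self i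
  rw [h1]
  have h2 := map_list_prod (specialUnitaryGroup (Fin N) ℂ).subtype
    (List.ofFn (n := m + 1) fun t : Fin (m + 1) => U (0, ((t : ZMod (m + 1)), x, 0, 0)))
  rw [List.map_ofFn] at h2
  exact h2

lemma trace_TT {m : ℕ} (R : ℕ) (U : Link (m + 1) L l → SU N) :
    trace (op (n := m + 1) fun t : ZMod (m + 1) => TT R (gs (sg (m + 1) L l) U t)) =
      trace (line U 0).1 * conj (trace (line U (R : ZMod L)).1) := by
  have h1 := op_kron (n := m + 1)
    (fun t : ZMod (m + 1) => (gs (sg (m + 1) L l) U t (0, 0)).1)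
    (fun t : ZMod (m + 1) => ((gs (sg (m + 1) L l) U t ((R : ZMod L), 0)).1.map (starRingEnd ℂ)))
  have h2 := op_conj (n := m + 1)
    (fun t : ZMod (m + 1) => (gs (sg (m + 1) L l) U t ((R : ZMod L), 0)).1)
  have h3 := congrArg trace h1
  refine h3.trans ?_
  rw [Matrix.trace_kronecker]
  refine congrArg₂ (fun a b : ℂ => a * b) ?_ ?_
  · rw [line_op]; rfl
  · rw [line_op]
    refine (congrArg trace h2).trans ?_
    rw [trace_conj]
    rfl

/-! ### measurability -/

section meas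

lemma BM_cont {Y : Type*} [TopologicalSpace Y] [CompactSpace Y] [MeasurableSpace Y]
    [OpensMeasurableSpace Y] {f : Y → ℝ} (hf : Continuous f) : BM f := by
  obtain ⟨C, hC⟩ := isCompact_univ.exists_bound_of_continuousOn hf.continuousOn
  exact ⟨hf.measurable, C, fun x => hC x (Set.mem_univ x)⟩

lemma BC_cont {Y : Type*} [TopologicalSpace Y] [CompactSpace Y] [MeasurableSpace Y]
    [OpensMeasurableSpace Y] {f : Y → ℂ} (hf : Continuous f) : BC f := by
  obtain ⟨C, hC⟩ := isCompact_univ.exists_bound_of_continuousOn hf.continuousOn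
  exact ⟨hf.measurable, C, fun x => hC x (Set.mem_univ x)⟩

lemma sE_cont (k : ℕ) : Continuous (sE k : (Fin 3 × Sp L l → SU N) → ℝ) := by
  have c : ∀ e : Fin 3 × Sp L l, Continuous fun x : Fin 3 × Sp L l → SU N => x e :=
    fun e => continuous_apply e
  unfold sE
  exact continuous_finsetSum _ fun u _ => (continuous_finsetSum _ fun y _ =>
    cont_aw4 _ (c _) (c _) (c _) (c _)).add (continuous_finsetSum _ fun y _ =>
    (cont_aw4 _ (c _) (c _) (c _) (c _)).add (cont_aw4 _ (c _) (c _) (c _) (c _)))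

lemma tE_cont : Continuous fun w : ((Fin 3 × Sp L l → SU N) × (Fin 3 × Sp L l → SU N)) ×
    (Sp L l → SU N) => tE w.1.1 w.2 w.1.2 := by
  have c1 : ∀ e, Continuous fun w : ((Fin 3 × Sp L l → SU N) × (Fin 3 × Sp L l → SU N)) ×
    (Sp L l → SU N) => w.1.1 e := fun e => (continuous_apply e).comp
      (continuous_fst.comp continuous_fst)
  have c2 : ∀ e, Continuous fun w : ((Fin 3 × Sp L l → SU N) × (Fin 3 × Sp L l → SU N)) ×
    (Sp L l → SU N) => w.1.2 e := fun e => (continuous_apply e).comp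
      (continuous_snd.comp continuous_fst)
  have c3 : ∀ e, Continuous fun w : ((Fin 3 × Sp L l → SU N) × (Fin 3 × Sp L l → SU N)) ×
    (Sp L l → SU N) => w.2 e := fun e => (continuous_apply e).comp continuous_snd
  unfold tE
  exact continuous_finsetSum _ fun u _ => (continuous_finsetSum _ fun y _ =>
    (cont_aw4 _ (c3 _) (c2 _) (c3 _) (c1 _)).add (cont_aw4 _ (c3 _) (c2 _) (c3 _) (c1 _))).add
    (continuous_finsetSum _ fun y _ => cont_aw4 _ (c3 _) (c2 _) (c3 _) (c1 _))

lemma kw_cont (k : ℕ) (β : ℝ) : Continuous fun w : ((Fin 3 × Sp L l → SU N) ×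
    (Fin 3 × Sp L l → SU N)) × (Sp L l → SU N) => kw k β w.1.1 w.2 w.1.2 := by
  unfold kw
  refine Real.continuous_exp.comp (Continuous.neg (continuous_const.mul ?_))
  exact ((((sE_cont k).comp (continuous_fst.comp continuous_fst)).div_const _).add tE_cont).add
    (((sE_cont k).comp (continuous_snd.comp continuous_fst)).div_const _)

lemma TT_cont (R : ℕ) (i j : Fin N × Fin N) :
    Continuous fun g : Sp L l → SU N => TT R g i j := by
  unfold TT
  simp only [Matrix.kroneckerMap_apply, Matrix.map_apply]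
  have c : ∀ (v : Sp L l) (i j : Fin N), Continuous fun g : Sp L l → SU N => (g v).1 i j :=
    fun v i j => (continuous_apply_apply i j).comp (continuous_coe.comp (continuous_apply v))
  exact (c _ _ _).mul (Complex.continuous_conj.comp (c _ _ _))

variable [MeasurableSpace (SU N)] [BorelSpace (SU N)]

lemma W_bt (k : ℕ) (β : ℝ) (R : ℕ) : BT fun w : ((Fin 3 × Sp L l → SU N) ×
    (Fin 3 × Sp L l → SU N)) × (Sp L l → SU N) =>
    ((kw k β w.1.1 w.2 w.1.2 : ℝ) : ℂ) • TT R w.2 := by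
  refine BT.smul (BM.toC (BM_cont (kw_cont k β))) fun i j => ?_
  exact BC_cont ((TT_cont R i j).comp continuous_snd)

end meas

section main

variable [MeasurableSpace (SU N)] [BorelSpace (SU N)] (μ : Measure (SU N)) [IsProbabilityMeasure μ]

/-- the kernel with the two sources -/
def kap (μ : Measure (SU N)) (k : ℕ) (β : ℝ) (R : ℕ) (x x' : Fin 3 × Sp L l → SU N) :
    Matrix (Fin N × Fin N) (Fin N × Fin N) ℂ :=
  mint (PM μ (Sp L l)) fun g => ((kw k β x g x' : ℝ) : ℂ) • TT R g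

lemma kap_bt (k : ℕ) (β : ℝ) (R : ℕ) :
    BT (Function.uncurry (kap (L := L) (l := l) μ k β R)) := (W_bt k β R).intg

lemma kap_star [μ.IsInvInvariant] (k : ℕ) (β : ℝ) (R : ℕ) (x x' : Fin 3 × Sp L l → SU N) :
    (kap μ k β R x x')ᴴ = kap μ k β R x' x := by
  unfold kap
  rw [mint_star]
  have h1 : MeasurePreserving (fun g : Sp L l → SU N => fun y => (g y)⁻¹) (PM μ (Sp L l))
      (PM μ (Sp L l)) :=
    measurePreserving_pi (fun _ : Sp L l => μ) (fun _ : Sp L l => μ)
      (f := fun _ g => g⁻¹) fun _ => Measure.measurePreserving_inv μ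
  have hb : BT fun g : Sp L l → SU N => ((kw k β x' g x : ℝ) : ℂ) • TT R g :=
    (W_bt k β R).comp (φ := fun g : Sp L l → SU N => ((x', x), g))
      (measurable_const.prodMk measurable_id)
  rw [← mint_mp h1 hb]
  refine congrArg (mint (PM μ (Sp L l))) (funext fun g => ?_)
  rw [kw_swap, Matrix.conjTranspose_smul, TT_star, RCLike.star_def, Complex.conj_ofReal]

theorem Fp_eq [μ.IsInvInvariant] (k : ℕ) (β : ℝ) (R m : ℕ) :
    Fp (m + 1) L l μ k β R = (1 / (N : ℝ) ^ 2) * TrM (PM μ (Fin 3 × Sp L l)) (kap μ k β R) (m + 1) := by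
  have h1 := slicesM (μ := μ) (sg (m + 1) L l)
    (W := fun x g x' => ((kw k β x g x' : ℝ) : ℂ) • TT R g) (W_bt k β R)
  have hint : ∀ U : Link (m + 1) L l → SU N,
      trace (op (n := m + 1) fun t : ZMod (m + 1) =>
        ((kw k β (xs (sg (m + 1) L l) U t) (gs (sg (m + 1) L l) U t)
          (xs (sg (m + 1) L l) U (t + 1)) : ℝ) : ℂ) • TT R (gs (sg (m + 1) L l) U t)) =
      ((Real.exp (-(β * action k U)) : ℝ) : ℂ) *
        (trace (line U 0).1 * conj (trace (line U (R : ZMod L)).1)) := by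
    intro U
    have h2 := op_smul (n := m + 1) (fun t : ZMod (m + 1) =>
        ((kw k β (xs (sg (m + 1) L l) U t) (gs (sg (m + 1) L l) U t)
          (xs (sg (m + 1) L l) U (t + 1)) : ℝ) : ℂ))
        (fun t : ZMod (m + 1) => TT R (gs (sg (m + 1) L l) U t))
    refine (congrArg trace h2).trans ?_
    rw [Matrix.trace_smul, trace_TT, smul_eq_mul]
    refine congrArg (fun a : ℂ => a * (trace (line U 0).1 *
      conj (trace (line U (R : ZMod L)).1))) ?_
    rw [← prod_kw]
    push_cast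
    rfl
  simp only [hint] at h1
  have hN : (N : ℝ) ≠ 0 := by exact_mod_cast NeZero.ne N
  have hNc : (N : ℂ) ≠ 0 := by exact_mod_cast NeZero.ne N
  unfold Fp TrM
  have hbc : BC fun U : Link (m + 1) L l → SU N => ((Real.exp (-(β * action k U)) : ℝ) : ℂ) *
        (trace (line U 0).1 * conj (trace (line U (R : ZMod L)).1)) := by
    have hb : ∀ t : ZMod (m + 1), BT fun U : Link (m + 1) L l → SU N =>
        ((kw k β (xs (sg (m + 1) L l) U t) (gs (sg (m + 1) L l) U t)
          (xs (sg (m + 1) L l) U (t + 1)) : ℝ) : ℂ) • TT R (gs (sg (m + 1) L l) U t) := fun t =>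
      (W_bt k β R).comp (φ := fun U : Link (m + 1) L l → SU N =>
        ((xs (sg (m + 1) L l) U t, xs (sg (m + 1) L l) U (t + 1)), gs (sg (m + 1) L l) U t))
        (((xs_meas _ t).prodMk (xs_meas _ (t + 1))).prodMk (gs_meas _ t))
    have h3 := (BT_op (n := m + 1) (M := fun (U : Link (m + 1) L l → SU N) (t : ZMod (m + 1)) =>
        ((kw k β (xs (sg (m + 1) L l) U t) (gs (sg (m + 1) L l) U t)
          (xs (sg (m + 1) L l) U (t + 1)) : ℝ) : ℂ) • TT R (gs (sg (m + 1) L l) U t)) hb).trace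
    simp only [hint] at h3
    exact h3
  have h4 : (∫ U : Link (m + 1) L l → SU N, ((Real.exp (-(β * action k U)) : ℝ) : ℂ) *
        (trace (line U 0).1 * conj (trace (line U (R : ZMod L)).1)) ∂(PM μ (Link (m + 1) L l))).re =
      (∫ y, trace (kM (PM μ (Fin 3 × Sp L l)) (kap μ k β R) (m + 1) y y)
        ∂(PM μ (Fin 3 × Sp L l))).re := congrArg Complex.re h1
  rw [← h4, re_int hbc, ← integral_const_mul]
  refine integral_congr_ae (Filter.Eventually.of_forall fun U => ?_)
  beta_reduce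
  rw [Complex.re_ofReal_mul]
  have e1 : trace (line U 0).1 / (N : ℂ) * star (trace (line U (R : ZMod L)).1 / (N : ℂ)) =
      ((1 / (N : ℝ) ^ 2 : ℝ) : ℂ) * (trace (line U 0).1 *
        conj (trace (line U (R : ZMod L)).1)) := by
    rw [star_div₀, RCLike.star_def, Complex.conj_natCast]
    push_cast
    field_simp
  rw [e1, Complex.re_ofReal_mul]
  ring

end main

theorem tPC3 : S_PC3 := by
  intro N l k L _ _ _ _ _ μ _ _ β R i hi
  have hi1 : 1 ≤ i := by
    have := hi.out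
    omega
  have hinv : μ.IsInvInvariant := inv_inv' μ
  have hk := kap_bt (L := L) (l := l) μ k β R
  have hs := kap_star (L := L) (l := l) μ k β R
  have hN : (0 : ℝ) < 1 / (N : ℝ) ^ 2 := by
    have : (0 : ℝ) < N := by exact_mod_cast NeZero.pos N
    positivity
  have key : ∀ (j : ℕ) [NeZero (2 * j)], 1 ≤ j → Fp (2 * j) L l μ k β R =
      (1 / (N : ℝ) ^ 2) * TrM (PM μ (Fin 3 × Sp L l)) (kap μ k β R) (2 * j) := by
    intro j hj hj1
    obtain ⟨m, hm⟩ : ∃ m, 2 * j = m + 1 := ⟨2 * j - 1, by omega⟩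
    have h := Fp_eq (L := L) (l := l) μ k β R m
    have e : ∀ (a : ℕ) [NeZero a], a = m + 1 → Fp a L l μ k β R =
        (1 / (N : ℝ) ^ 2) * TrM (PM μ (Fin 3 × Sp L l)) (kap μ k β R) a := by
      intro a ha ham
      subst ham
      exact h
    exact e (2 * j) hm
  rw [key i hi1, key (i + 1) (by omega), key (i + 2) (by omega)]
  refine ⟨mul_nonneg hN.le (TrM_nonneg hk hs hi1), ?_⟩
  have h1 := TrM_lc (μ := PM μ (Fin 3 × Sp L l)) hk hs hi1
  have h2 : 0 ≤ (1 / (N : ℝ) ^ 2) ^ 2 := by positivity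
  nlinarith [mul_le_mul_of_nonneg_left h1 h2]

end

end Run7.h182.PC
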