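import Pool.Agent.Run7.h182.PC.Mk
import Pool.Agent.Run7.h897.FS.Slice

/-!
# Ordered products of matrix kernels around a circle
-/

set_option autoImplicit false
set_option linter.unusedSectionVars false
set_option linter.unusedVariables false

open MeasureTheory Matrix
open scoped ComplexConjugate
open Pool.Agent.Run7.h897.FS

namespace Run7.h182.PC

noncomputable section

variable {X Y : Type*} [MeasurableSpace X] [MeasurableSpace Y] {J : Type*} [Fintype J]
  [DecidableEq J]

/-- ordered products -/
def op {n : ℕ} (M : Fin n → Matrix J J ℂ) : Matrix J J ℂ := (List.ofFn M).prod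

lemma op_zero (M : Fin 0 → Matrix J J ℂ) : op M = 1 := by simp [op]

lemma op_succ {n : ℕ} (M : Fin (n + 1) → Matrix J J ℂ) :
    op M = M 0 * op fun i => M i.succ := by
  unfold op
  rw [List.ofFn_succ, List.prod_cons]

lemma op_last {n : ℕ} (M : Fin (n + 1) → Matrix J J ℂ) :
    op M = (op fun i => M i.castSucc) * M (Fin.last n) := by
  unfold op
  rw [List.ofFn_succ', List.concat_eq_append, List.prod_append]
  simp

lemma BT_op {n : ℕ} {M : X → Fin n → Matrix J J ℂ} (h : ∀ t, BT fun x => M x t) :
    BT fun x => op (M x) := by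
  induction n with
  | zero =>
    simp only [op_zero]
    exact BT.const 1
  | succ n ih =>
    simp only [op_succ]
    exact (h 0).mul (ih (M := fun x i => M x i.succ) fun t => h t.succ)

lemma op_smul {n : ℕ} (c : Fin n → ℂ) (M : Fin n → Matrix J J ℂ) :
    (op fun t => c t • M t) = (∏ t, c t) • op M := by
  induction n with
  | zero => simp [op_zero]
  | succ n ih =>
    rw [op_succ, op_succ, ih (fun i => c i.succ) fun i => M i.succ, Fin.prod_univ_succ,
      smul_mul_smul_comm]

section

variable {μ : Measure X} {ν : Measure Y} [IsProbabilityMeasure μ] [IsProbabilityMeasure ν]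

lemma cint_cons {n : ℕ} {f : (Fin (n + 1) → X) → ℂ} (hf : BC f) :
    ∫ x, f x ∂(Measure.pi fun _ => μ) =
      ∫ y, ∫ u : Fin n → X, f (Fin.cons y u) ∂(Measure.pi fun _ => μ) ∂μ := by
  have h1 := (measurePreserving_piFinSuccAbove (fun _ : Fin (n + 1) => μ) 0).symm
  have h2 := h1.integral_comp' (g := f)
  have e : ∀ (x : X) (u : Fin n → X),
      (MeasurableEquiv.piFinSuccAbove (fun _ : Fin (n + 1) => X) 0).symm (x, u) =
        (Fin.cons x u : Fin (n + 1) → X) := by
    intro x u
    change Fin.insertNth (α := fun _ => X) 0 x u = _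
    rw [Fin.insertNth_zero']
  rw [← h2, cfub]
  · simp only [e]
  · refine hf.comp ?_
    exact h1.measurable

lemma mint_cons {n : ℕ} {f : (Fin (n + 1) → X) → Matrix J J ℂ} (hf : BT f) :
    mint (Measure.pi fun _ => μ) f =
      mint μ fun y => mint (Measure.pi fun _ => μ) fun u : Fin n → X => f (Fin.cons y u) := by
  ext i j
  simp only [mint_apply]
  exact cint_cons (hf i j)

lemma mint_const (A : Matrix J J ℂ) : mint μ (fun _ => A) = A := by
  ext i j
  simp [mint_apply]

/-- independent factors -/
lemma mint_op {n : ℕ} (W : Fin n → Y → Matrix J J ℂ) (hW : ∀ t, BT (W t)) :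
    mint (Measure.pi fun _ => ν) (fun g : Fin n → Y => op fun t => W t (g t)) =
      op fun t => mint ν (W t) := by
  induction n with
  | zero =>
    simp only [op_zero]
    exact mint_const 1
  | succ n ih =>
    have hb : BT fun g : Fin (n + 1) → Y => op fun t => W t (g t) :=
      BT_op (M := fun (g : Fin (n + 1) → Y) t => W t (g t)) fun t =>
        (hW t).comp (measurable_pi_apply t)
    have hb' : BT fun g : Fin n → Y => op fun t => W t.succ (g t) :=
      BT_op (M := fun (g : Fin n → Y) t => W t.succ (g t)) fun t =>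
        (hW t.succ).comp (measurable_pi_apply t)
    rw [mint_cons hb]
    have e : ∀ (y : Y), mint (Measure.pi fun _ => ν) (fun u : Fin n → Y =>
        op fun t => W t ((Fin.cons y u : Fin (n + 1) → Y) t)) =
        W 0 y * op fun t => mint ν (W t.succ) := by
      intro y
      rw [← ih (fun t => W t.succ) fun t => hW t.succ, ← mint_mul_left _ hb']
      congr 1
      funext u
      rw [op_succ]
      simp only [Fin.cons_zero, Fin.cons_succ]
    simp only [e]
    rw [mint_mul_right _ (hW 0), op_succ]

/-- iterated application -/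
def ItM (μ : Measure X) (κ : X → X → Matrix J J ℂ) :
    ℕ → (X → Matrix J J ℂ) → X → Matrix J J ℂ
  | 0, h => h
  | n + 1, h => fun y => mint μ fun v => κ y v * ItM μ κ n h v

variable {κ : X → X → Matrix J J ℂ}

lemma ItM_bm (hk : BT (Function.uncurry κ)) (n : ℕ) {h : X → Matrix J J ℂ} (hh : BT h) :
    BT (ItM μ κ n h) := by
  induction n with
  | zero => exact hh
  | succ n ih =>
    have h1 : BT fun w : X × X => κ w.1 w.2 * ItM μ κ n h w.2 :=
      BT.mul hk (ih.comp measurable_snd)
    exact h1.intg

lemma ItM_kM (hk : BT (Function.uncurry κ)) (n m : ℕ) (hm : 1 ≤ m) (y : X) :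
    ItM μ κ n (fun u => kM μ κ m u y) = fun u => kM μ κ (n + m) u y := by
  induction n with
  | zero => simp [ItM]
  | succ n ih =>
    funext x
    simp only [ItM, ih]
    rw [show n + 1 + m = n + m + 1 by ring, kM_succ (by omega)]

lemma chainM (hk : BT (Function.uncurry κ)) (n : ℕ) : ∀ {h : X → Matrix J J ℂ}, BT h → ∀ y,
    mint (Measure.pi fun _ => μ) (fun u : Fin n → X =>
      (op fun t : Fin n => κ ((Fin.cons y u : Fin (n + 1) → X) t.castSucc)
        ((Fin.cons y u : Fin (n + 1) → X) t.succ)) *
      h ((Fin.cons y u : Fin (n + 1) → X) (Fin.last n))) = ItM μ κ n h y := by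
  induction n with
  | zero =>
    intro h hh y
    simp only [op_zero, Matrix.one_mul]
    have : ∀ u : Fin 0 → X, h ((Fin.cons y u : Fin 1 → X) (Fin.last 0)) = h y := fun u => rfl
    simp only [this]
    exact mint_const _
  | succ n ih =>
    intro h hh y
    have hb : ∀ y, BT fun u : Fin (n + 1) → X =>
        (op fun t : Fin (n + 1) => κ ((Fin.cons y u : Fin (n + 2) → X) t.castSucc)
          ((Fin.cons y u : Fin (n + 2) → X) t.succ)) *
        h ((Fin.cons y u : Fin (n + 2) → X) (Fin.last (n + 1))) := by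
      intro y
      refine BT.mul (BT_op fun t => ?_) ?_
      · exact hk.comp (φ := fun u : Fin (n + 1) → X =>
          ((Fin.cons y u : Fin (n + 2) → X) t.castSucc, (Fin.cons y u : Fin (n + 2) → X) t.succ))
          (((measurable_pi_apply _).comp (cons_bm y)).prodMk
          ((measurable_pi_apply _).comp (cons_bm y)))
      · exact hh.comp ((measurable_pi_apply _).comp (cons_bm y))
    have hb' : ∀ y, BT fun u : Fin n → X =>
        (op fun t : Fin n => κ ((Fin.cons y u : Fin (n + 1) → X) t.castSucc)
          ((Fin.cons y u : Fin (n + 1) → X) t.succ)) *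
        h ((Fin.cons y u : Fin (n + 1) → X) (Fin.last n)) := by
      intro y
      refine BT.mul (BT_op fun t => ?_) ?_
      · exact hk.comp (φ := fun u : Fin n → X =>
          ((Fin.cons y u : Fin (n + 1) → X) t.castSucc, (Fin.cons y u : Fin (n + 1) → X) t.succ))
          (((measurable_pi_apply _).comp (cons_bm y)).prodMk
          ((measurable_pi_apply _).comp (cons_bm y)))
      · exact hh.comp ((measurable_pi_apply _).comp (cons_bm y))
    rw [mint_cons (hb y)]
    simp only [ItM]
    congr 1
    funext v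
    rw [← ih hh v, ← mint_mul_left _ (hb' v)]
    congr 1
    funext u
    rw [op_succ]
    have e1 : (Fin.cons y (Fin.cons v u : Fin (n + 1) → X) : Fin (n + 2) → X)
        (Fin.castSucc 0) = y := rfl
    have e2 : (Fin.cons y (Fin.cons v u : Fin (n + 1) → X) : Fin (n + 2) → X)
        (Fin.succ 0) = v := rfl
    have e3 : ∀ t : Fin n, (Fin.cons y (Fin.cons v u : Fin (n + 1) → X) : Fin (n + 2) → X)
        (Fin.castSucc t.succ) = (Fin.cons v u : Fin (n + 1) → X) t.castSucc := fun t => by
      rw [← Fin.succ_castSucc, Fin.cons_succ]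
    have e4 : ∀ t : Fin n, (Fin.cons y (Fin.cons v u : Fin (n + 1) → X) : Fin (n + 2) → X)
        (Fin.succ t.succ) = (Fin.cons v u : Fin (n + 1) → X) t.succ := fun t => by
      rw [Fin.cons_succ]
    have e5 : (Fin.cons y (Fin.cons v u : Fin (n + 1) → X) : Fin (n + 2) → X)
        (Fin.last (n + 1)) = (Fin.cons v u : Fin (n + 1) → X) (Fin.last n) := by
      rw [← Fin.succ_last, Fin.cons_succ]
    simp only [e1, e2, e3, e4, e5]
    rw [Matrix.mul_assoc]

/-- ordered products around a circle -/
theorem ringM (hk : BT (Function.uncurry κ)) (n : ℕ) :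
    ∫ x : Fin (n + 1) → X, trace (op fun t : Fin (n + 1) => κ (x t) (x (t + 1)))
      ∂(Measure.pi fun _ => μ) = ∫ y, trace (kM μ κ (n + 1) y y) ∂μ := by
  have hb : BC fun x : Fin (n + 1) → X => trace (op fun t : Fin (n + 1) => κ (x t) (x (t + 1))) :=
    (BT_op fun t => hk.comp (φ := fun x : Fin (n + 1) → X => (x t, x (t + 1)))
      ((measurable_pi_apply _).prodMk (measurable_pi_apply _))).trace
  rw [cint_cons hb]
  congr 1
  funext y
  have hby : BT fun u => κ u y := hk.comp (measurable_id.prodMk measurable_const)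
  have h1 := chainM (μ := μ) hk n hby y
  have h2 := ItM_kM (μ := μ) hk n 1 le_rfl y
  simp only [kM_one] at h2
  rw [h2] at h1
  have hb' : BT fun u : Fin n → X =>
      (op fun t : Fin n => κ ((Fin.cons y u : Fin (n + 1) → X) t.castSucc)
        ((Fin.cons y u : Fin (n + 1) → X) t.succ)) *
      κ ((Fin.cons y u : Fin (n + 1) → X) (Fin.last n)) y := by
    refine BT.mul (BT_op fun t => ?_) ?_
    · exact hk.comp (φ := fun u : Fin n → X =>
        ((Fin.cons y u : Fin (n + 1) → X) t.castSucc, (Fin.cons y u : Fin (n + 1) → X) t.succ))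
        (((measurable_pi_apply _).comp (cons_bm y)).prodMk
        ((measurable_pi_apply _).comp (cons_bm y)))
    · exact hby.comp ((measurable_pi_apply _).comp (cons_bm y))
  have h1' : mint (Measure.pi fun _ => μ) (fun u : Fin n → X =>
      (op fun t : Fin n => κ ((Fin.cons y u : Fin (n + 1) → X) t.castSucc)
        ((Fin.cons y u : Fin (n + 1) → X) t.succ)) *
      κ ((Fin.cons y u : Fin (n + 1) → X) (Fin.last n)) y) = kM μ κ (n + 1) y y := h1
  rw [← h1', mint_trace hb']
  congr 1
  funext u
  rw [op_last]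
  have e1 : ∀ t : Fin n, (Fin.cons y u : Fin (n + 1) → X) (t.castSucc + 1) =
      (Fin.cons y u : Fin (n + 1) → X) t.succ := fun t => by rw [Fin.coeSucc_eq_succ]
  have e2 : (Fin.cons y u : Fin (n + 1) → X) (Fin.last n + 1) = y := by
    rw [Fin.last_add_one]; rfl
  simp only [e1, e2]

end

/-! ### slices -/

section slices

variable {G : Type*} {E A B : Type} [Fintype E] [Fintype A] [Fintype B] {n : ℕ}
  (σ : (ZMod (n + 1) × A) ⊕ (ZMod (n + 1) × B) ≃ E) [MeasurableSpace G] {μ : Measure G}
  [IsProbabilityMeasure μ]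

lemma cint_slices {f : (ZMod (n + 1) → A → G) × (ZMod (n + 1) → B → G) → ℂ} (hf : BC f) :
    ∫ U, f (fun t => xs σ U t, fun t => gs σ U t) ∂(PM μ E) =
      ∫ x, ∫ g, f (x, g) ∂(Measure.pi fun _ => PM μ B) ∂(Measure.pi fun _ => PM μ A) := by
  have h := mp_slices (μ := μ) σ
  rw [← cfub hf, ← h.map_eq, integral_map h.measurable.aemeasurable]
  exact hf.1.aestronglyMeasurable

/-- the trace of the ordered product of the weights of the layers -/
theorem slicesM {W : (A → G) → (B → G) → (A → G) → Matrix J J ℂ}
    (hW : BT fun w : ((A → G) × (A → G)) × (B → G) => W w.1.1 w.2 w.1.2) :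
    ∫ U, trace (op (n := n + 1) fun t : ZMod (n + 1) =>
        W (xs σ U t) (gs σ U t) (xs σ U (t + 1))) ∂(PM μ E) =
      ∫ y, trace (kM (PM μ A) (fun x x' => mint (PM μ B) fun g => W x g x') (n + 1) y y)
        ∂(PM μ A) := by
  have hk : BT (Function.uncurry fun x x' : A → G => mint (PM μ B) fun g => W x g x') := hW.intg
  have hbW : ∀ (t : ZMod (n + 1)), BT fun w : (ZMod (n + 1) → A → G) × (ZMod (n + 1) → B → G) =>
      W (w.1 t) (w.2 t) (w.1 (t + 1)) := fun t =>
    hW.comp (φ := fun w : (ZMod (n + 1) → A → G) × (ZMod (n + 1) → B → G) =>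
        ((w.1 t, w.1 (t + 1)), w.2 t))
      ((((measurable_pi_apply t).comp measurable_fst).prodMk
        ((measurable_pi_apply (t + 1)).comp measurable_fst)).prodMk
        ((measurable_pi_apply t).comp measurable_snd))
  have hb : BC fun w : (ZMod (n + 1) → A → G) × (ZMod (n + 1) → B → G) =>
      trace (op (n := n + 1) fun t : ZMod (n + 1) => W (w.1 t) (w.2 t) (w.1 (t + 1))) :=
    (BT_op (n := n + 1) (M := fun (w : (ZMod (n + 1) → A → G) × (ZMod (n + 1) → B → G))
      (t : ZMod (n + 1)) => W (w.1 t) (w.2 t) (w.1 (t + 1))) hbW).trace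
  rw [cint_slices (μ := μ) σ hb]
  have hR := ringM (μ := PM μ A) hk n
  refine Eq.trans ?_ hR
  congr 1
  funext x
  have h1 : ∀ t : ZMod (n + 1), BT fun g : B → G => W (x t) g (x (t + 1)) := fun t =>
    hW.comp (φ := fun g : B → G => ((x t, x (t + 1)), g)) (measurable_const.prodMk measurable_id)
  have h2 := mint_op (ν := PM μ B) (n := n + 1) (fun t : ZMod (n + 1) => fun g : B → G =>
    W (x t) g (x (t + 1))) h1
  have h3 : BT fun g : Fin (n + 1) → B → G => op (n := n + 1) fun t : ZMod (n + 1) =>
      W (x t) (g t) (x (t + 1)) :=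
    BT_op (n := n + 1) (M := fun (g : Fin (n + 1) → B → G) (t : ZMod (n + 1)) =>
      W (x t) (g t) (x (t + 1))) fun t => (h1 t).comp (measurable_pi_apply _)
  have h4 := mint_trace (μ := Measure.pi fun _ : Fin (n + 1) => PM μ B) h3
  exact h4.symm.trans (congrArg trace h2)

end slices

end

end Run7.h182.PC
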